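import Mathlib
set_option autoImplicit false

/-! Arithmetic for the sequential labelings of `mK_{s,t}`, `s < t`. -/

namespace V11294SQ

lemma key0 (d w t s a b : ℕ) (hw : w + t + 1 = s * t) (hsw : s ≤ w) (ht : 0 < t) (hb : b < s)
    (h : d * w + t * a = t * b) : d = 0 := by
  by_contra hd
  have hdpos : 0 < d := Nat.pos_of_ne_zero hd
  have hcop : Nat.Coprime t w := by
    have h1 : t ∣ w + 1 := ⟨s - 1, by
      obtain ⟨s', rfl⟩ : ∃ s', s = s' + 1 := ⟨s - 1, by omega⟩
      simp only [Nat.add_sub_cancel]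
      nlinarith⟩
    have h2 : Nat.gcd t w ∣ 1 := by
      have h3 : Nat.gcd t w ∣ w + 1 := (Nat.gcd_dvd_left t w).trans h1
      exact (Nat.dvd_add_right (Nat.gcd_dvd_right t w)).1 h3
    exact Nat.dvd_one.1 h2
  have hdvd : t ∣ d * w := by
    have h1 : t ∣ d * w + t * a := ⟨b, h⟩
    exact (Nat.dvd_add_left ⟨a, rfl⟩).1 h1
  have htd : t ∣ d := hcop.dvd_of_dvd_mul_right hdvd
  have hle : t ≤ d := Nat.le_of_dvd hdpos htd
  have h1 : t * w ≤ t * b := by nlinarith
  have h2 : w ≤ b := Nat.le_of_mul_le_mul_left h1 ht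
  omega

lemma key1 (i i' w t s j j' : ℕ) (hw : w + t + 1 = s * t) (hsw : s ≤ w) (ht : 0 < t)
    (hj : j < s) (hj' : j' < s) (h : i * w + t * j = i' * w + t * j') : i = i' ∧ j = j' := by
  rcases le_total i i' with hii | hii
  · obtain ⟨d, rfl⟩ := Nat.exists_eq_add_of_le hii
    have h1 : d * w + t * j' = t * j := by nlinarith
    have h2 := key0 d w t s j' j hw hsw ht hj h1
    subst h2
    refine ⟨rfl, ?_⟩
    have h3 : t * j' = t * j := by simpa using h1
    exact (Nat.eq_of_mul_eq_mul_left ht h3).symm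
  · obtain ⟨d, rfl⟩ := Nat.exists_eq_add_of_le hii
    have h1 : d * w + t * j = t * j' := by nlinarith
    have h2 := key0 d w t s j j' hw hsw ht hj' h1
    subst h2
    refine ⟨rfl, ?_⟩
    have h3 : t * j = t * j' := by simpa using h1
    exact Nat.eq_of_mul_eq_mul_left ht h3

lemma key2 (n i w t s j k : ℕ) (hw : w + t + 1 = s * t) (hsw : s ≤ w) (hs : 2 ≤ s) (ht : 3 ≤ t)
    (hj : j < s) (hi : i < n) (h : i * w + t * j = n * w + s * k) : False := by
  obtain ⟨d, rfl⟩ : ∃ d, n = i + (d + 1) := ⟨n - i - 1, by omega⟩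
  have h1 : t * j = (d + 1) * w + s * k := by nlinarith
  have h2 : t * j + t ≤ s * t := by nlinarith
  have h3 : (d + 1) * w + s * k ≤ w + 1 := by omega
  have h4 : d = 0 := by
    by_contra hd
    have : 1 ≤ d := Nat.pos_of_ne_zero hd
    nlinarith
  subst h4
  have h5 : k = 0 := by
    by_contra hk
    have : 1 ≤ k := Nat.pos_of_ne_zero hk
    nlinarith
  subst h5
  have h6 : t * j = w := by simpa using h1
  have h7 : t ∣ w := ⟨j, h6.symm⟩
  have h8 : t ∣ w + t + 1 := ⟨s, by rw [hw, mul_comm]⟩
  have h9 : t ∣ 1 := by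
    have : t ∣ w + t := Nat.dvd_add h7 (dvd_refl t)
    exact (Nat.dvd_add_right this).1 h8
  have := Nat.le_of_dvd one_pos h9
  omega

lemma euclid (a i i' k k' : ℕ) (hk : k < a) (hk' : k' < a) (h : i * a + k = i' * a + k') :
    i = i' ∧ k = k' := by
  have h1 : (i * a + k) / a = i := by
    rw [mul_comm, Nat.mul_add_div (by omega), Nat.div_eq_of_lt hk]; rfl
  have h2 : (i' * a + k') / a = i' := by
    rw [mul_comm, Nat.mul_add_div (by omega), Nat.div_eq_of_lt hk']; rfl
  have h3 : i = i' := by rw [← h1, h, h2]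
  subst h3
  exact ⟨rfl, by omega⟩

/-- Vertex labels on the side of size `s`. -/
def LA (n s t w a0 : ℕ) (i : Fin (n + 1)) (j : Fin s) : ℕ :=
  if (i : ℕ) < n then a0 + i * w + t * j else a0 + 1 + j

/-- Vertex labels on the side of size `t`. -/
def LB (n s t y : ℕ) (i : Fin (n + 1)) (k : Fin t) : ℕ :=
  if (i : ℕ) < n then i * (t + 1) + k else y + s * k

theorem construct (n s t : ℕ) (hn : 1 ≤ n) (hs : 2 ≤ s) (hst : s < t) (h23 : s + t + 1 < s * t) :
    ∃ (A : Fin (n + 1) → Fin s → ℕ) (B : Fin (n + 1) → Fin t → ℕ) (c : ℕ), 0 < c ∧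
    (∀ i j, A i j < (n + 1) * s * t) ∧ (∀ i k, B i k < (n + 1) * s * t) ∧
    (∀ i j i' j', A i j = A i' j' → i = i' ∧ j = j') ∧
    (∀ i k i' k', B i k = B i' k' → i = i' ∧ k = k') ∧
    (∀ i j i' k, A i j ≠ B i' k) ∧
    (∀ i j k, c ≤ A i j + B i k ∧ A i j + B i k < c + (n + 1) * s * t) ∧
    (∀ x, c ≤ x → x < c + (n + 1) * s * t → ∃ i j k, A i j + B i k = x) := by
  obtain ⟨w, hw⟩ : ∃ w, w + t + 1 = s * t := ⟨s * t - t - 1, by omega⟩
  obtain ⟨a0, ha0⟩ : ∃ a0, a0 + 1 = n * (t + 1) := ⟨n * (t + 1) - 1, by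
    have : 1 ≤ n * (t + 1) := by nlinarith
    omega⟩
  obtain ⟨y, hy⟩ : ∃ y, y + 1 = n * (s * t) := ⟨n * (s * t) - 1, by
    have : 1 ≤ n * (s * t) := by nlinarith
    omega⟩
  have hsw : s < w := by omega
  have hN : (n + 1) * s * t = n * (s * t) + s * t := by ring
  have hnw : n * w + n * (t + 1) = n * (s * t) := by rw [← hw]; ring
  have ha0pos : t ≤ a0 := by nlinarith
  have hjt : ∀ j : Fin s, t * (j : ℕ) + t ≤ s * t := by
    intro j
    have := j.2
    nlinarith
  have hks : ∀ k : Fin t, s * (k : ℕ) + s ≤ s * t := by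
    intro k
    have := k.2
    nlinarith
  have hiw : ∀ i : ℕ, i < n → i * w + w ≤ n * w := by
    intro i hi
    nlinarith
  have hit : ∀ i : ℕ, i < n → i * (t + 1) + (t + 1) ≤ n * (t + 1) := by
    intro i hi
    nlinarith
  have hiP : ∀ i : ℕ, i < n → i * (s * t) + s * t ≤ n * (s * t) := by
    intro i hi
    have : (i + 1) * (s * t) ≤ n * (s * t) := Nat.mul_le_mul_right _ hi
    nlinarith
  have hn1 : w ≤ n * w := by nlinarith
  refine ⟨LA n s t w a0, LB n s t y, a0, by omega, ?_, ?_, ?_, ?_, ?_, ?_, ?_⟩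
  · intro i j
    rw [hN]
    unfold LA
    have h1 := hjt j
    have h2 := j.2
    split_ifs with h
    · have := hiw i h
      omega
    · omega
  · intro i k
    rw [hN]
    unfold LB
    have h1 := hks k
    have h2 := k.2
    split_ifs with h
    · have := hit i h
      omega
    · omega
  · intro i j i' j' heq
    unfold LA at heq
    have h1 := j.2
    have h2 := j'.2
    split_ifs at heq with h h' h'
    · obtain ⟨e1, e2⟩ := key1 i i' w t s j j' hw hsw.le (by omega) h1 h2 (by omega)
      exact ⟨Fin.ext e1, Fin.ext e2⟩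
    · exfalso
      have e : (i : ℕ) * w + t * j = 1 + j' := by omega
      rcases Nat.eq_zero_or_pos (i : ℕ) with hi | hi
      · rw [hi] at e
        rcases Nat.eq_zero_or_pos (j : ℕ) with hj | hj
        · rw [hj] at e; omega
        · have : t ≤ t * (j : ℕ) := Nat.le_mul_of_pos_right t hj
          omega
      · have : w ≤ (i : ℕ) * w := Nat.le_mul_of_pos_left w hi
        omega
    · exfalso
      have e : (i' : ℕ) * w + t * j' = 1 + j := by omega
      rcases Nat.eq_zero_or_pos (i' : ℕ) with hi | hi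
      · rw [hi] at e
        rcases Nat.eq_zero_or_pos (j' : ℕ) with hj | hj
        · rw [hj] at e; omega
        · have : t ≤ t * (j' : ℕ) := Nat.le_mul_of_pos_right t hj
          omega
      · have : w ≤ (i' : ℕ) * w := Nat.le_mul_of_pos_left w hi
        omega
    · refine ⟨Fin.ext ?_, Fin.ext ?_⟩
      · have := i.2; have := i'.2; omega
      · omega
  · intro i k i' k' heq
    unfold LB at heq
    have h1 := k.2
    have h2 := k'.2
    split_ifs at heq with h h' h'
    · obtain ⟨e1, e2⟩ := euclid (t + 1) i i' k k' (by omega) (by omega) heq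
      exact ⟨Fin.ext e1, Fin.ext e2⟩
    · exfalso
      have := hit i h
      omega
    · exfalso
      have := hit i' h'
      omega
    · refine ⟨Fin.ext ?_, Fin.ext ?_⟩
      · have := i.2; have := i'.2; omega
      · have e : s * (k : ℕ) = s * k' := by omega
        exact Nat.eq_of_mul_eq_mul_left (by omega) e
  · intro i j i' k heq
    unfold LA LB at heq
    have h1 := j.2
    have h2 := k.2
    split_ifs at heq with h h' h'
    · have := hit i' h'
      omega
    · have e : (i : ℕ) * w + t * j = n * w + s * k := by omega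
      exact key2 n i w t s j k hw hsw.le hs (by omega) h1 h e
    · have := hit i' h'
      omega
    · omega
  · intro i j k
    rw [hN]
    unfold LA LB
    have h1 := j.2
    have h2 := k.2
    have h3 := hjt j
    have h4 := hks k
    split_ifs with h
    · have e : (i : ℕ) * w + i * (t + 1) = i * (s * t) := by rw [← hw]; ring
      have := hiP i h
      constructor
      · omega
      · omega
    · constructor
      · omega
      · omega
  · intro x hx hx'
    rw [hN] at hx'
    obtain ⟨r, rfl⟩ := Nat.exists_eq_add_of_le hx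
    have hPpos : 0 < s * t := by omega
    rcases lt_or_ge r (n * (s * t)) with hr | hr
    · have hi : r / (s * t) < n := by
        rw [Nat.div_lt_iff_lt_mul hPpos]; exact hr
      have hrem : r % (s * t) < s * t := Nat.mod_lt _ hPpos
      have hj : (r % (s * t)) / t < s := by
        rw [Nat.div_lt_iff_lt_mul (by omega)]; exact hrem
      have hk : (r % (s * t)) % t < t := Nat.mod_lt _ (by omega)
      refine ⟨⟨r / (s * t), by omega⟩, ⟨(r % (s * t)) / t, hj⟩, ⟨(r % (s * t)) % t, hk⟩, ?_⟩
      unfold LA LB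
      simp only [hi, if_true]
      have e1 : (s * t) * (r / (s * t)) + r % (s * t) = r := Nat.div_add_mod _ _
      have e2 : t * ((r % (s * t)) / t) + (r % (s * t)) % t = r % (s * t) := Nat.div_add_mod _ _
      have e : (r / (s * t)) * w + (r / (s * t)) * (t + 1) = (s * t) * (r / (s * t)) := by
        rw [← hw]; ring
      omega
    · obtain ⟨r', rfl⟩ := Nat.exists_eq_add_of_le hr
      have hr' : r' < s * t := by omega
      have hk : r' / s < t := by
        rw [Nat.div_lt_iff_lt_mul (by omega), mul_comm]; exact hr'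
      have hj : r' % s < s := Nat.mod_lt _ (by omega)
      refine ⟨⟨n, by omega⟩, ⟨r' % s, hj⟩, ⟨r' / s, hk⟩, ?_⟩
      unfold LA LB
      simp only [lt_irrefl, if_false]
      have e1 : s * (r' / s) + r' % s = r' := Nat.div_add_mod _ _
      omega

end V11294SQ
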