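import Mathlib
import Pool.Agent.V11294.SQ.Build
set_option autoImplicit false

/-! Sequential labelings of `mK_{s,s}` for composite `s`. -/

namespace V11294SQ

lemma key3 (n i w s j k u : ℕ) (hw : w + s + 1 = s * s) (hsw : s ≤ w) (hu : 2 ≤ u) (hs : 3 ≤ s)
    (hj : j < s) (hi : i < n) (h : i * w + s * j = n * w + u * k) : False := by
  obtain ⟨d, rfl⟩ : ∃ d, n = i + (d + 1) := ⟨n - i - 1, by omega⟩
  have h1 : s * j = (d + 1) * w + u * k := by nlinarith
  have h2 : s * j + s ≤ s * s := by nlinarith
  have h3 : (d + 1) * w + u * k ≤ w + 1 := by omega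
  have h4 : d = 0 := by
    by_contra hd
    have : 1 ≤ d := Nat.pos_of_ne_zero hd
    nlinarith
  subst h4
  have h5 : k = 0 := by
    by_contra hk
    have : 1 ≤ k := Nat.pos_of_ne_zero hk
    nlinarith
  subst h5
  have h6 : s * j = w := by simpa using h1
  have h7 : s ∣ w := ⟨j, h6.symm⟩
  have h8 : s ∣ w + s + 1 := ⟨s, hw⟩
  have h9 : s ∣ 1 := by
    have : s ∣ w + s := Nat.dvd_add h7 (dvd_refl s)
    exact (Nat.dvd_add_right this).1 h8
  have := Nat.le_of_dvd one_pos h9
  omega

def CA (n s u w a0 : ℕ) (i : Fin (n + 1)) (j : Fin s) : ℕ :=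
  if (i : ℕ) < n then a0 + i * w + s * j else a0 + 1 + ((j : ℕ) % u + s * (u * ((j : ℕ) / u)))

def CB (n s u y : ℕ) (i : Fin (n + 1)) (k : Fin s) : ℕ :=
  if (i : ℕ) < n then i * (s + 1) + k else y + u * k

theorem construct_comp (n u v s : ℕ) (hn : 1 ≤ n) (hu : 2 ≤ u) (hv : 2 ≤ v) (hs : s = u * v) :
    ∃ (A : Fin (n + 1) → Fin s → ℕ) (B : Fin (n + 1) → Fin s → ℕ) (c : ℕ), 0 < c ∧
    (∀ i j, A i j < (n + 1) * s * s) ∧ (∀ i k, B i k < (n + 1) * s * s) ∧
    (∀ i j i' j', A i j = A i' j' → i = i' ∧ j = j') ∧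
    (∀ i k i' k', B i k = B i' k' → i = i' ∧ k = k') ∧
    (∀ i j i' k, A i j ≠ B i' k) ∧
    (∀ i j k, c ≤ A i j + B i k ∧ A i j + B i k < c + (n + 1) * s * s) ∧
    (∀ x, c ≤ x → x < c + (n + 1) * s * s → ∃ i j k, A i j + B i k = x) := by
  have hs4 : 4 ≤ s := by nlinarith
  have hus : u + u ≤ s := by nlinarith
  have hss : 4 * s ≤ s * s := Nat.mul_le_mul_right _ hs4
  obtain ⟨w, hw⟩ : ∃ w, w + s + 1 = s * s := ⟨s * s - s - 1, by omega⟩
  obtain ⟨a0, ha0⟩ : ∃ a0, a0 + 1 = n * (s + 1) := ⟨n * (s + 1) - 1, by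
    have : 1 ≤ n * (s + 1) := by nlinarith
    omega⟩
  obtain ⟨y, hy⟩ : ∃ y, y + 1 = n * (s * s) := ⟨n * (s * s) - 1, by
    have : 1 ≤ n * (s * s) := by nlinarith
    omega⟩
  have hsw : s < w := by omega
  have hN : (n + 1) * s * s = n * (s * s) + s * s := by ring
  have hnw : n * w + n * (s + 1) = n * (s * s) := by rw [← hw]; ring
  have ha0pos : s ≤ a0 := by nlinarith
  have husum : u + s + 2 ≤ u * s := by nlinarith
  have hjt : ∀ j : Fin s, s * (j : ℕ) + s ≤ s * s := by
    intro j
    have := j.2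
    nlinarith
  have hus2 : u * s ≤ s * s := Nat.mul_le_mul_right _ (by omega)
  have hks : ∀ k : Fin s, u * (k : ℕ) + u ≤ u * s := by
    intro k
    have := k.2
    nlinarith
  have hmod : ∀ j : ℕ, j % u < u := fun j => Nat.mod_lt _ (by omega)
  have hX : ∀ j : Fin s, s * (u * ((j : ℕ) / u)) + u * s ≤ s * s := by
    intro j
    have h1 : (j : ℕ) / u < v := by
      rw [Nat.div_lt_iff_lt_mul (by omega), mul_comm, ← hs]; exact j.2
    have h2 : u * ((j : ℕ) / u) + u ≤ s := by
      have h3 : u * ((j : ℕ) / u + 1) ≤ u * v := Nat.mul_le_mul_left _ h1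
      have h4 : u * ((j : ℕ) / u + 1) = u * ((j : ℕ) / u) + u := by ring
      omega
    nlinarith
  have hit : ∀ i : ℕ, i < n → i * (s + 1) + (s + 1) ≤ n * (s + 1) := by
    intro i hi
    nlinarith
  have hiw : ∀ i : ℕ, i < n → i * w + w ≤ n * w := by
    intro i hi
    nlinarith
  have hiP : ∀ i : ℕ, i < n → i * (s * s) + s * s ≤ n * (s * s) := by
    intro i hi
    have : (i + 1) * (s * s) ≤ n * (s * s) := Nat.mul_le_mul_right _ hi
    nlinarith
  have hn1 : w ≤ n * w := by nlinarith
  have hn2 : n * (s + 1) ≤ n * (s * s) := by omega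
  -- a P-block against the last block
  have hPL : ∀ (i : ℕ) (j j' : Fin s), i * w + s * (j : ℕ) =
      1 + ((j' : ℕ) % u + s * (u * ((j' : ℕ) / u))) → False := by
    intro i j j' h
    have h1 := hX j'
    have h2 := hmod (j' : ℕ)
    rcases Nat.eq_zero_or_pos i with hi | hi
    · rw [hi, zero_mul, zero_add] at h
      have h3 := euclid s (j : ℕ) (u * ((j' : ℕ) / u)) 0 (1 + (j' : ℕ) % u) (by omega) (by omega)
        (by
          have e1 : (j : ℕ) * s = s * (j : ℕ) := mul_comm _ _
          have e2 : u * ((j' : ℕ) / u) * s = s * (u * ((j' : ℕ) / u)) := mul_comm _ _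
          omega)
      omega
    · have : w ≤ i * w := Nat.le_mul_of_pos_left w hi
      omega
  refine ⟨CA n s u w a0, CB n s u y, a0, by omega, ?_, ?_, ?_, ?_, ?_, ?_, ?_⟩
  · intro i j
    rw [hN]
    unfold CA
    have h1 := hjt j
    have h3 := hX j
    have h4 := hmod (j : ℕ)
    split_ifs with h
    · have := hiw i h
      omega
    · omega
  · intro i k
    rw [hN]
    unfold CB
    have h1 := hks k
    have h2 := k.2
    split_ifs with h
    · have := hit i h
      omega
    · omega
  · intro i j i' j' heq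
    unfold CA at heq
    have h1 := j.2
    have h2 := j'.2
    split_ifs at heq with h h' h'
    · obtain ⟨e1, e2⟩ := key1 i i' w s s j j' hw hsw.le (by omega) h1 h2 (by omega)
      exact ⟨Fin.ext e1, Fin.ext e2⟩
    · exact (hPL i j j' (by omega)).elim
    · exact (hPL i' j' j (by omega)).elim
    · have h3 := hmod (j : ℕ)
      have h4 := hmod (j' : ℕ)
      obtain ⟨e1, e2⟩ := euclid s (u * ((j : ℕ) / u)) (u * ((j' : ℕ) / u)) ((j : ℕ) % u)
        ((j' : ℕ) % u) (by omega) (by omega) (by
          have e1 : u * ((j : ℕ) / u) * s = s * (u * ((j : ℕ) / u)) := mul_comm _ _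
          have e2 : u * ((j' : ℕ) / u) * s = s * (u * ((j' : ℕ) / u)) := mul_comm _ _
          omega)
      have e3 := Nat.div_add_mod (j : ℕ) u
      have e4 := Nat.div_add_mod (j' : ℕ) u
      refine ⟨Fin.ext ?_, Fin.ext ?_⟩
      · have := i.2; have := i'.2; omega
      · omega
  · intro i k i' k' heq
    unfold CB at heq
    have h1 := k.2
    have h2 := k'.2
    split_ifs at heq with h h' h'
    · obtain ⟨e1, e2⟩ := euclid (s + 1) i i' k k' (by omega) (by omega) heq
      exact ⟨Fin.ext e1, Fin.ext e2⟩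
    · exfalso
      have := hit i h
      omega
    · exfalso
      have := hit i' h'
      omega
    · refine ⟨Fin.ext ?_, Fin.ext ?_⟩
      · have := i.2; have := i'.2; omega
      · have e : u * (k : ℕ) = u * k' := by omega
        exact Nat.eq_of_mul_eq_mul_left (by omega) e
  · intro i j i' k heq
    unfold CA CB at heq
    have h1 := j.2
    have h2 := k.2
    have h3 := hX j
    have h4 := hmod (j : ℕ)
    split_ifs at heq with h h' h'
    · have := hit i' h'
      omega
    · have e : (i : ℕ) * w + s * j = n * w + u * k := by omega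
      exact key3 n i w s j k u hw hsw.le hu (by omega) h1 h e
    · have := hit i' h'
      omega
    · omega
  · intro i j k
    rw [hN]
    unfold CA CB
    have h1 := j.2
    have h2 := k.2
    have h3 := hjt j
    have h4 := hks k
    have h5 := hX j
    have h6 := hmod (j : ℕ)
    split_ifs with h
    · have e : (i : ℕ) * w + i * (s + 1) = i * (s * s) := by rw [← hw]; ring
      have := hiP i h
      constructor
      · omega
      · omega
    · constructor
      · omega
      · omega
  · intro x hx hx'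
    rw [hN] at hx'
    obtain ⟨r, rfl⟩ := Nat.exists_eq_add_of_le hx
    have hPpos : 0 < s * s := by omega
    rcases lt_or_ge r (n * (s * s)) with hr | hr
    · have hi : r / (s * s) < n := by
        rw [Nat.div_lt_iff_lt_mul hPpos]; exact hr
      have hrem : r % (s * s) < s * s := Nat.mod_lt _ hPpos
      have hj : (r % (s * s)) / s < s := by
        rw [Nat.div_lt_iff_lt_mul (by omega)]; exact hrem
      have hk : (r % (s * s)) % s < s := Nat.mod_lt _ (by omega)
      refine ⟨⟨r / (s * s), by omega⟩, ⟨(r % (s * s)) / s, hj⟩, ⟨(r % (s * s)) % s, hk⟩, ?_⟩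
      unfold CA CB
      simp only [hi, if_true]
      have e1 : (s * s) * (r / (s * s)) + r % (s * s) = r := Nat.div_add_mod _ _
      have e2 : s * ((r % (s * s)) / s) + (r % (s * s)) % s = r % (s * s) := Nat.div_add_mod _ _
      have e : (r / (s * s)) * w + (r / (s * s)) * (s + 1) = (s * s) * (r / (s * s)) := by
        rw [← hw]; ring
      omega
    · obtain ⟨r', rfl⟩ := Nat.exists_eq_add_of_le hr
      have hr' : r' < s * s := by omega
      have husp : 0 < u * s := by omega
      have hq : r' / (u * s) < v := by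
        rw [Nat.div_lt_iff_lt_mul husp]
        have : v * (u * s) = s * s := by rw [hs]; ring
        omega
      have hrem : r' % (u * s) < u * s := Nat.mod_lt _ husp
      have hk : (r' % (u * s)) / u < s := by
        rw [Nat.div_lt_iff_lt_mul (by omega), mul_comm s u]; exact hrem
      have hρ := hmod (r' % (u * s))
      have hj : u * (r' / (u * s)) + (r' % (u * s)) % u < s := by
        have : u * (r' / (u * s)) + u ≤ s := by
          rw [hs] at hq ⊢
          nlinarith
        omega
      refine ⟨⟨n, by omega⟩, ⟨u * (r' / (u * s)) + (r' % (u * s)) % u, hj⟩,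
        ⟨(r' % (u * s)) / u, hk⟩, ?_⟩
      unfold CA CB
      simp only [lt_irrefl, if_false]
      have d1 : (u * (r' / (u * s)) + (r' % (u * s)) % u) % u = (r' % (u * s)) % u := by
        rw [Nat.mul_add_mod, Nat.mod_mod]
      have d2 : (u * (r' / (u * s)) + (r' % (u * s)) % u) / u = r' / (u * s) := by
        rw [Nat.mul_add_div (by omega), Nat.div_eq_of_lt hρ]; rfl
      rw [d1, d2]
      have e1 : (u * s) * (r' / (u * s)) + r' % (u * s) = r' := Nat.div_add_mod _ _
      have e2 : u * ((r' % (u * s)) / u) + (r' % (u * s)) % u = r' % (u * s) :=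
        Nat.div_add_mod _ _
      have e3 : s * (u * (r' / (u * s))) = (u * s) * (r' / (u * s)) := by ring
      omega

end V11294SQ
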