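import Mathlib
set_option autoImplicit false

/-! `2K_{2,3}` is not sequential: finite search. -/

namespace V11294SQ

/-- `s` is not one of the six sums `0, d, e, e + d, g, g + d`. -/
def Out (d e g s : ℕ) : Bool :=
  !(s == 0 || s == d || s == e || s == e + d || s == g || s == g + d)

/-- the search over label positions -/
def fin223 (d e g r d' e' g' : ℕ) : Bool :=
  (List.range 12).all fun a => (List.range 12).all fun x =>
    !(Nat.blt (a + d) 12 && Nat.blt (x + g) 12 && a != x && a != x + e && a != x + g &&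
      a + d != x && a + d != x + e && a + d != x + g) ||
    (List.range 12).all fun b =>
      !(Nat.blt (b + d') 12 && Nat.ble b (a + x + r) && Nat.blt (a + x + r - b + g') 12 &&
        b != a && b != a + d && b + d' != a && b + d' != a + d &&
        b != x && b != x + e && b != x + g && b + d' != x && b + d' != x + e && b + d' != x + g &&
        a + x + r - b != b && a + x + r - b != b + d' &&
        a + x + r - b + e' != b && a + x + r - b + e' != b + d' &&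
        a + x + r - b + g' != b && a + x + r - b + g' != b + d' &&
        a + x + r - b != a && a + x + r - b != a + d &&
        a + x + r - b + e' != a && a + x + r - b + e' != a + d &&
        a + x + r - b + g' != a && a + x + r - b + g' != a + d &&
        a + x + r - b != x && a + x + r - b != x + e && a + x + r - b != x + g &&
        a + x + r - b + e' != x && a + x + r - b + e' != x + e && a + x + r - b + e' != x + g &&
        a + x + r - b + g' != x && a + x + r - b + g' != x + e && a + x + r - b + g' != x + g)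

def search223 : Bool :=
  (List.range 12).all fun d => (List.range 12).all fun e =>
    !(Nat.blt 0 d && Nat.blt 0 e && Nat.blt (e + d) 12 && e != d) ||
    (List.range 12).all fun g =>
      !(Nat.blt e g && Nat.blt (g + d) 12 && g != d && g != e + d) ||
      (List.range 12).all fun r =>
        !(Out d e g r) ||
        (List.range 12).all fun d' =>
          !(Nat.blt 0 d' && Nat.blt (r + d') 12 && Out d e g (r + d')) ||
          (List.range 12).all fun e' =>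
            !(Nat.blt 0 e' && Nat.blt (r + e' + d') 12 && e' != d' && Out d e g (r + e') &&
              Out d e g (r + e' + d')) ||
            (List.range 12).all fun g' =>
              !(Nat.blt e' g' && Nat.blt (r + g' + d') 12 && g' != d' && g' != e' + d' &&
                Out d e g (r + g') && Out d e g (r + g' + d')) ||
              fin223 d e g r d' e' g'

theorem search223_true : search223 = true := by decide +kernel

end V11294SQ

namespace V11294SQ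

lemma stepB {p q : Bool} (h : (!p || q) = true) (hp : p = true) : q = true := by
  cases p <;> simp_all

lemma notB {p : Bool} (h : (!p) = true) (hp : p = true) : False := by
  cases p <;> simp_all

lemma getB {n : ℕ} {P : ℕ → Bool} (h : (List.range n).all P = true) {x : ℕ} (hx : x < n) :
    P x = true := List.all_eq_true.1 h x (List.mem_range.2 hx)

lemma out_true {d e g s : ℕ} (h0 : s ≠ 0) (h1 : s ≠ d) (h2 : s ≠ e) (h3 : s ≠ e + d) (h4 : s ≠ g)
    (h5 : s ≠ g + d) : Out d e g s = true := by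
  simp [Out, h0, h1, h2, h3, h4, h5]

lemma search_sound {d e g r d' e' g' : ℕ} (d0 : 0 < d) (e0 : 0 < e) (eg : e < g) (gd : g + d < 12)
    (d0' : 0 < d') (e0' : 0 < e') (eg' : e' < g') (gd' : r + g' + d' < 12)
    (o0_0 : r ≠ 0) (o0_1 : r ≠ d) (o0_2 : r ≠ e) (o0_3 : r ≠ e + d) (o0_4 : r ≠ g) (o0_5 : r ≠ g + d) (o1_0 : r + d' ≠ 0) (o1_1 : r + d' ≠ d) (o1_2 : r + d' ≠ e) (o1_3 : r + d' ≠ e + d) (o1_4 : r + d' ≠ g) (o1_5 : r + d' ≠ g + d) (o2_0 : r + e' ≠ 0) (o2_1 : r + e' ≠ d) (o2_2 : r + e' ≠ e) (o2_3 : r + e' ≠ e + d) (o2_4 : r + e' ≠ g) (o2_5 : r + e' ≠ g + d) (o3_0 : r + e' + d' ≠ 0) (o3_1 : r + e' + d' ≠ d) (o3_2 : r + e' + d' ≠ e) (o3_3 : r + e' + d' ≠ e + d) (o3_4 : r + e' + d' ≠ g) (o3_5 : r + e' + d' ≠ g + d) (o4_0 : r + g' ≠ 0) (o4_1 : r + g' ≠ d) (o4_2 : r + g' ≠ e) (o4_3 : r + g' ≠ e + d) (o4_4 : r + g' ≠ g) (o4_5 : r + g' ≠ g + d) (o5_0 : r + g' + d' ≠ 0) (o5_1 : r + g' + d' ≠ d) (o5_2 : r +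 g' + d' ≠ e) (o5_3 : r + g' + d' ≠ e + d) (o5_4 : r + g' + d' ≠ g) (o5_5 : r + g' + d' ≠ g + d) (w0 : e ≠ d) (w1 : g ≠ d) (w2 : g ≠ e + d) (w3 : e' ≠ d') (w4 : g' ≠ d') (w5 : g' ≠ e' + d') : fin223 d e g r d' e' g' = true := by
  have b1 : d < 12 := lt_of_le_of_lt (Nat.le_add_left _ _) gd
  have b3 : g < 12 := lt_of_le_of_lt (Nat.le_add_right _ _) gd
  have b2 : e < 12 := eg.trans b3
  have b4 : e + d < 12 := lt_of_le_of_lt (Nat.add_le_add_right eg.le _) gd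
  have b5 : r + g' < 12 := lt_of_le_of_lt (Nat.le_add_right _ _) gd'
  have b6 : r < 12 := lt_of_le_of_lt (Nat.le_add_right _ _) b5
  have b7 : g' < 12 := lt_of_le_of_lt (Nat.le_add_left _ _) b5
  have b8 : e' < 12 := eg'.trans b7
  have b9 : d' < 12 := lt_of_le_of_lt (Nat.le_add_left _ _) gd'
  have b10 : r + e' + d' < 12 :=
    lt_of_le_of_lt (Nat.add_le_add_right (Nat.add_le_add_left eg'.le _) _) gd'
  have b11 : r + d' < 12 := lt_of_le_of_lt (Nat.add_le_add_right (Nat.le_add_right _ _) _) b10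
  have h := search223_true
  unfold search223 at h
  have h3 := stepB (getB (getB h b1) b2) (by
    simp only [Bool.and_eq_true, bne_iff_ne, Nat.blt_eq]
    exact ⟨⟨⟨d0, e0⟩, b4⟩, w0⟩)
  have h5 := stepB (getB h3 b3) (by
    simp only [Bool.and_eq_true, bne_iff_ne, Nat.blt_eq]
    exact ⟨⟨⟨eg, gd⟩, w1⟩, w2⟩)
  have h7 := stepB (getB h5 b6) (out_true o0_0 o0_1 o0_2 o0_3 o0_4 o0_5)
  have h9 := stepB (getB h7 b9) (by
    simp only [Bool.and_eq_true, bne_iff_ne, Nat.blt_eq]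
    exact ⟨⟨d0', b11⟩, out_true o1_0 o1_1 o1_2 o1_3 o1_4 o1_5⟩)
  have h11 := stepB (getB h9 b8) (by
    simp only [Bool.and_eq_true, bne_iff_ne, Nat.blt_eq]
    exact ⟨⟨⟨⟨e0', b10⟩, w3⟩, out_true o2_0 o2_1 o2_2 o2_3 o2_4 o2_5⟩, out_true o3_0 o3_1 o3_2 o3_3 o3_4 o3_5⟩)
  exact stepB (getB h11 b7) (by
    simp only [Bool.and_eq_true, bne_iff_ne, Nat.blt_eq]
    exact ⟨⟨⟨⟨⟨eg', gd'⟩, w4⟩, w5⟩, out_true o4_0 o4_1 o4_2 o4_3 o4_4 o4_5⟩, out_true o5_0 o5_1 o5_2 o5_3 o5_4 o5_5⟩)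

lemma fin_sound {a x b u d e g r d' e' g' : ℕ} (hf : fin223 d e g r d' e' g' = true)
    (hr : b + u = a + x + r) (ad : a + d < 12) (xg : x + g < 12) (bd : b + d' < 12)
    (ug : u + g' < 12) (f0 : a ≠ x) (f1 : a ≠ x + e) (f2 : a ≠ x + g) (f3 : a + d ≠ x) (f4 : a + d ≠ x + e) (f5 : a + d ≠ x + g) (k0 : b ≠ a) (k1 : b ≠ a + d) (k2 : b + d' ≠ a) (k3 : b + d' ≠ a + d) (k4 : b ≠ x) (k5 : b ≠ x + e) (k6 : b ≠ x + g) (k7 : b + d' ≠ x) (k8 : b + d' ≠ x + e) (k9 : b + d' ≠ x + g) (k10 : u ≠ b) (k11 : u ≠ b + d') (k12 : u + e' ≠ b) (k13 : u + e' ≠ b + d') (k14 : u + g' ≠ b) (k15 : u + g' ≠ b + d') (k16 : u ≠ a) (k17 : u ≠ a + d) (k18 : u + e' ≠ a) (k19 : u + e' ≠ a + d) (k20 : u + g' ≠ a) (k21 : u + g' ≠ a + d) (k22 : u ≠ x) (k23 : u ≠ x + e) (k24 : u ≠ x + g) (k25 : u + e' ≠ x) (k26 : u + e' ≠ x + e) (k27 : u + e' ≠ x + g) (k28 : u + g' ≠ x) (k29 : u + g' ≠ x + e) (k30 : u + g' ≠ x + g) : False := by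
  have hu : a + x + r - b = u := by rw [← hr]; exact Nat.add_sub_cancel_left _ _
  have bu : b ≤ a + x + r := by rw [← hr]; exact Nat.le_add_right _ _
  have b1 : a < 12 := lt_of_le_of_lt (Nat.le_add_right _ _) ad
  have b2 : x < 12 := lt_of_le_of_lt (Nat.le_add_right _ _) xg
  have b3 : b < 12 := lt_of_le_of_lt (Nat.le_add_right _ _) bd
  unfold fin223 at hf
  have h3 := stepB (getB (getB hf b1) b2) (by
    simp only [Bool.and_eq_true, bne_iff_ne, Nat.blt_eq]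
    exact ⟨⟨⟨⟨⟨⟨⟨ad, xg⟩, f0⟩, f1⟩, f2⟩, f3⟩, f4⟩, f5⟩)
  have h4 := getB h3 b3
  rw [hu] at h4
  exact notB h4 (by
    simp only [Bool.and_eq_true, bne_iff_ne, Nat.blt_eq, Nat.ble_eq]
    exact ⟨⟨⟨⟨⟨⟨⟨⟨⟨⟨⟨⟨⟨⟨⟨⟨⟨⟨⟨⟨⟨⟨⟨⟨⟨⟨⟨⟨⟨⟨⟨⟨⟨bd, bu⟩, ug⟩, k0⟩, k1⟩, k2⟩, k3⟩, k4⟩, k5⟩, k6⟩, k7⟩, k8⟩, k9⟩, k10⟩, k11⟩, k12⟩, k13⟩, k14⟩, k15⟩, k16⟩, k17⟩, k18⟩, k19⟩, k20⟩, k21⟩, k22⟩, k23⟩, k24⟩, k25⟩, k26⟩, k27⟩, k28⟩, k29⟩, k30⟩)

theorem no223 (A : Fin 2 → Fin 2 → ℕ) (B : Fin 2 → Fin 3 → ℕ) (c : ℕ)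
    (hA : ∀ i, A i 0 < A i 1) (hB1 : ∀ i, B i 0 < B i 1) (hB2 : ∀ i, B i 1 < B i 2)
    (hlA : ∀ i j, A i j < 12) (hlB : ∀ i k, B i k < 12)
    (hlab : Function.Injective
      (fun v : Fin 2 × (Fin 2 ⊕ Fin 3) => Sum.elim (A v.1) (B v.1) v.2))
    (hsum : Function.Injective (fun p : Fin 2 × Fin 2 × Fin 3 => A p.1 p.2.1 + B p.1 p.2.2))
    (hr : ∀ i j k, c ≤ A i j + B i k ∧ A i j + B i k < c + 12)
    (h0 : A 0 0 + B 0 0 = c) : False := by
  obtain ⟨d, e1⟩ := Nat.exists_eq_add_of_le (hA 0).le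
  obtain ⟨d', e2⟩ := Nat.exists_eq_add_of_le (hA 1).le
  obtain ⟨e, e3⟩ := Nat.exists_eq_add_of_le (hB1 0).le
  obtain ⟨e', e4⟩ := Nat.exists_eq_add_of_le (hB1 1).le
  obtain ⟨g, e5⟩ := Nat.exists_eq_add_of_le ((hB1 0).trans (hB2 0)).le
  obtain ⟨g', e6⟩ := Nat.exists_eq_add_of_le ((hB1 1).trans (hB2 1)).le
  obtain ⟨r, e7⟩ : ∃ r, A 1 0 + B 1 0 = A 0 0 + B 0 0 + r := by
    obtain ⟨r, h⟩ := Nat.exists_eq_add_of_le (hr 1 0 0).1
    exact ⟨r, by rw [h, h0]⟩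
  have a1 := hA 0
  have a2 := hA 1
  have b1 := hB1 0
  have b2 := hB2 0
  have b3 := hB1 1
  have b4 := hB2 1
  have r2 := (hr 0 1 2).2
  have r3 := (hr 1 1 2).2
  have l1 := hlA 0 1
  have l2 := hlA 1 1
  have l3 := hlB 0 2
  have l4 := hlB 1 2
  refine fin_sound (a := A 0 0) (x := B 0 0) (b := A 1 0) (u := B 1 0) (search_sound (d := d) (e := e) (g := g) (r := r) (d' := d')
    (e' := e') (g' := g') (by omega) (by omega)
    (by omega) (by omega) (by omega) (by omega) (by omega) (by omega)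
    (fun h => absurd (@hsum (1,0,0) (0,0,0) (show A 1 0 + B 1 0 = A 0 0 + B 0 0 by omega)) (by decide))
    (fun h => absurd (@hsum (1,0,0) (0,1,0) (show A 1 0 + B 1 0 = A 0 1 + B 0 0 by omega)) (by decide))
    (fun h => absurd (@hsum (1,0,0) (0,0,1) (show A 1 0 + B 1 0 = A 0 0 + B 0 1 by omega)) (by decide))
    (fun h => absurd (@hsum (1,0,0) (0,1,1) (show A 1 0 + B 1 0 = A 0 1 + B 0 1 by omega)) (by decide))
    (fun h => absurd (@hsum (1,0,0) (0,0,2) (show A 1 0 + B 1 0 = A 0 0 + B 0 2 by omega)) (by decide))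
    (fun h => absurd (@hsum (1,0,0) (0,1,2) (show A 1 0 + B 1 0 = A 0 1 + B 0 2 by omega)) (by decide))
    (fun h => absurd (@hsum (1,1,0) (0,0,0) (show A 1 1 + B 1 0 = A 0 0 + B 0 0 by omega)) (by decide))
    (fun h => absurd (@hsum (1,1,0) (0,1,0) (show A 1 1 + B 1 0 = A 0 1 + B 0 0 by omega)) (by decide))
    (fun h => absurd (@hsum (1,1,0) (0,0,1) (show A 1 1 + B 1 0 = A 0 0 + B 0 1 by omega)) (by decide))
    (fun h => absurd (@hsum (1,1,0) (0,1,1) (show A 1 1 + B 1 0 = A 0 1 + B 0 1 by omega)) (by decide))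
    (fun h => absurd (@hsum (1,1,0) (0,0,2) (show A 1 1 + B 1 0 = A 0 0 + B 0 2 by omega)) (by decide))
    (fun h => absurd (@hsum (1,1,0) (0,1,2) (show A 1 1 + B 1 0 = A 0 1 + B 0 2 by omega)) (by decide))
    (fun h => absurd (@hsum (1,0,1) (0,0,0) (show A 1 0 + B 1 1 = A 0 0 + B 0 0 by omega)) (by decide))
    (fun h => absurd (@hsum (1,0,1) (0,1,0) (show A 1 0 + B 1 1 = A 0 1 + B 0 0 by omega)) (by decide))
    (fun h => absurd (@hsum (1,0,1) (0,0,1) (show A 1 0 + B 1 1 = A 0 0 + B 0 1 by omega)) (by decide))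
    (fun h => absurd (@hsum (1,0,1) (0,1,1) (show A 1 0 + B 1 1 = A 0 1 + B 0 1 by omega)) (by decide))
    (fun h => absurd (@hsum (1,0,1) (0,0,2) (show A 1 0 + B 1 1 = A 0 0 + B 0 2 by omega)) (by decide))
    (fun h => absurd (@hsum (1,0,1) (0,1,2) (show A 1 0 + B 1 1 = A 0 1 + B 0 2 by omega)) (by decide))
    (fun h => absurd (@hsum (1,1,1) (0,0,0) (show A 1 1 + B 1 1 = A 0 0 + B 0 0 by omega)) (by decide))
    (fun h => absurd (@hsum (1,1,1) (0,1,0) (show A 1 1 + B 1 1 = A 0 1 + B 0 0 by omega)) (by decide))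
    (fun h => absurd (@hsum (1,1,1) (0,0,1) (show A 1 1 + B 1 1 = A 0 0 + B 0 1 by omega)) (by decide))
    (fun h => absurd (@hsum (1,1,1) (0,1,1) (show A 1 1 + B 1 1 = A 0 1 + B 0 1 by omega)) (by decide))
    (fun h => absurd (@hsum (1,1,1) (0,0,2) (show A 1 1 + B 1 1 = A 0 0 + B 0 2 by omega)) (by decide))
    (fun h => absurd (@hsum (1,1,1) (0,1,2) (show A 1 1 + B 1 1 = A 0 1 + B 0 2 by omega)) (by decide))
    (fun h => absurd (@hsum (1,0,2) (0,0,0) (show A 1 0 + B 1 2 = A 0 0 + B 0 0 by omega)) (by decide))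
    (fun h => absurd (@hsum (1,0,2) (0,1,0) (show A 1 0 + B 1 2 = A 0 1 + B 0 0 by omega)) (by decide))
    (fun h => absurd (@hsum (1,0,2) (0,0,1) (show A 1 0 + B 1 2 = A 0 0 + B 0 1 by omega)) (by decide))
    (fun h => absurd (@hsum (1,0,2) (0,1,1) (show A 1 0 + B 1 2 = A 0 1 + B 0 1 by omega)) (by decide))
    (fun h => absurd (@hsum (1,0,2) (0,0,2) (show A 1 0 + B 1 2 = A 0 0 + B 0 2 by omega)) (by decide))
    (fun h => absurd (@hsum (1,0,2) (0,1,2) (show A 1 0 + B 1 2 = A 0 1 + B 0 2 by omega)) (by decide))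
    (fun h => absurd (@hsum (1,1,2) (0,0,0) (show A 1 1 + B 1 2 = A 0 0 + B 0 0 by omega)) (by decide))
    (fun h => absurd (@hsum (1,1,2) (0,1,0) (show A 1 1 + B 1 2 = A 0 1 + B 0 0 by omega)) (by decide))
    (fun h => absurd (@hsum (1,1,2) (0,0,1) (show A 1 1 + B 1 2 = A 0 0 + B 0 1 by omega)) (by decide))
    (fun h => absurd (@hsum (1,1,2) (0,1,1) (show A 1 1 + B 1 2 = A 0 1 + B 0 1 by omega)) (by decide))
    (fun h => absurd (@hsum (1,1,2) (0,0,2) (show A 1 1 + B 1 2 = A 0 0 + B 0 2 by omega)) (by decide))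
    (fun h => absurd (@hsum (1,1,2) (0,1,2) (show A 1 1 + B 1 2 = A 0 1 + B 0 2 by omega)) (by decide))
    (fun h => absurd (@hsum (0,0,1) (0,1,0) (show A 0 0 + B 0 1 = A 0 1 + B 0 0 by omega)) (by decide))
    (fun h => absurd (@hsum (0,0,2) (0,1,0) (show A 0 0 + B 0 2 = A 0 1 + B 0 0 by omega)) (by decide))
    (fun h => absurd (@hsum (0,0,2) (0,1,1) (show A 0 0 + B 0 2 = A 0 1 + B 0 1 by omega)) (by decide))
    (fun h => absurd (@hsum (1,0,1) (1,1,0) (show A 1 0 + B 1 1 = A 1 1 + B 1 0 by omega)) (by decide))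
    (fun h => absurd (@hsum (1,0,2) (1,1,0) (show A 1 0 + B 1 2 = A 1 1 + B 1 0 by omega)) (by decide))
    (fun h => absurd (@hsum (1,0,2) (1,1,1) (show A 1 0 + B 1 2 = A 1 1 + B 1 1 by omega)) (by decide)))
    e7 (by omega) (by omega) (by omega) (by omega)
    (fun h => absurd (@hlab (0,Sum.inl 0) (0,Sum.inr 0) (show A 0 0 = B 0 0 by omega)) (by decide))
    (fun h => absurd (@hlab (0,Sum.inl 0) (0,Sum.inr 1) (show A 0 0 = B 0 1 by omega)) (by decide))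
    (fun h => absurd (@hlab (0,Sum.inl 0) (0,Sum.inr 2) (show A 0 0 = B 0 2 by omega)) (by decide))
    (fun h => absurd (@hlab (0,Sum.inl 1) (0,Sum.inr 0) (show A 0 1 = B 0 0 by omega)) (by decide))
    (fun h => absurd (@hlab (0,Sum.inl 1) (0,Sum.inr 1) (show A 0 1 = B 0 1 by omega)) (by decide))
    (fun h => absurd (@hlab (0,Sum.inl 1) (0,Sum.inr 2) (show A 0 1 = B 0 2 by omega)) (by decide))
    (fun h => absurd (@hlab (1,Sum.inl 0) (0,Sum.inl 0) (show A 1 0 = A 0 0 by omega)) (by decide))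
    (fun h => absurd (@hlab (1,Sum.inl 0) (0,Sum.inl 1) (show A 1 0 = A 0 1 by omega)) (by decide))
    (fun h => absurd (@hlab (1,Sum.inl 1) (0,Sum.inl 0) (show A 1 1 = A 0 0 by omega)) (by decide))
    (fun h => absurd (@hlab (1,Sum.inl 1) (0,Sum.inl 1) (show A 1 1 = A 0 1 by omega)) (by decide))
    (fun h => absurd (@hlab (1,Sum.inl 0) (0,Sum.inr 0) (show A 1 0 = B 0 0 by omega)) (by decide))
    (fun h => absurd (@hlab (1,Sum.inl 0) (0,Sum.inr 1) (show A 1 0 = B 0 1 by omega)) (by decide))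
    (fun h => absurd (@hlab (1,Sum.inl 0) (0,Sum.inr 2) (show A 1 0 = B 0 2 by omega)) (by decide))
    (fun h => absurd (@hlab (1,Sum.inl 1) (0,Sum.inr 0) (show A 1 1 = B 0 0 by omega)) (by decide))
    (fun h => absurd (@hlab (1,Sum.inl 1) (0,Sum.inr 1) (show A 1 1 = B 0 1 by omega)) (by decide))
    (fun h => absurd (@hlab (1,Sum.inl 1) (0,Sum.inr 2) (show A 1 1 = B 0 2 by omega)) (by decide))
    (fun h => absurd (@hlab (1,Sum.inr 0) (1,Sum.inl 0) (show B 1 0 = A 1 0 by omega)) (by decide))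
    (fun h => absurd (@hlab (1,Sum.inr 0) (1,Sum.inl 1) (show B 1 0 = A 1 1 by omega)) (by decide))
    (fun h => absurd (@hlab (1,Sum.inr 1) (1,Sum.inl 0) (show B 1 1 = A 1 0 by omega)) (by decide))
    (fun h => absurd (@hlab (1,Sum.inr 1) (1,Sum.inl 1) (show B 1 1 = A 1 1 by omega)) (by decide))
    (fun h => absurd (@hlab (1,Sum.inr 2) (1,Sum.inl 0) (show B 1 2 = A 1 0 by omega)) (by decide))
    (fun h => absurd (@hlab (1,Sum.inr 2) (1,Sum.inl 1) (show B 1 2 = A 1 1 by omega)) (by decide))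
    (fun h => absurd (@hlab (1,Sum.inr 0) (0,Sum.inl 0) (show B 1 0 = A 0 0 by omega)) (by decide))
    (fun h => absurd (@hlab (1,Sum.inr 0) (0,Sum.inl 1) (show B 1 0 = A 0 1 by omega)) (by decide))
    (fun h => absurd (@hlab (1,Sum.inr 1) (0,Sum.inl 0) (show B 1 1 = A 0 0 by omega)) (by decide))
    (fun h => absurd (@hlab (1,Sum.inr 1) (0,Sum.inl 1) (show B 1 1 = A 0 1 by omega)) (by decide))
    (fun h => absurd (@hlab (1,Sum.inr 2) (0,Sum.inl 0) (show B 1 2 = A 0 0 by omega)) (by decide))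
    (fun h => absurd (@hlab (1,Sum.inr 2) (0,Sum.inl 1) (show B 1 2 = A 0 1 by omega)) (by decide))
    (fun h => absurd (@hlab (1,Sum.inr 0) (0,Sum.inr 0) (show B 1 0 = B 0 0 by omega)) (by decide))
    (fun h => absurd (@hlab (1,Sum.inr 0) (0,Sum.inr 1) (show B 1 0 = B 0 1 by omega)) (by decide))
    (fun h => absurd (@hlab (1,Sum.inr 0) (0,Sum.inr 2) (show B 1 0 = B 0 2 by omega)) (by decide))
    (fun h => absurd (@hlab (1,Sum.inr 1) (0,Sum.inr 0) (show B 1 1 = B 0 0 by omega)) (by decide))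
    (fun h => absurd (@hlab (1,Sum.inr 1) (0,Sum.inr 1) (show B 1 1 = B 0 1 by omega)) (by decide))
    (fun h => absurd (@hlab (1,Sum.inr 1) (0,Sum.inr 2) (show B 1 1 = B 0 2 by omega)) (by decide))
    (fun h => absurd (@hlab (1,Sum.inr 2) (0,Sum.inr 0) (show B 1 2 = B 0 0 by omega)) (by decide))
    (fun h => absurd (@hlab (1,Sum.inr 2) (0,Sum.inr 1) (show B 1 2 = B 0 1 by omega)) (by decide))
    (fun h => absurd (@hlab (1,Sum.inr 2) (0,Sum.inr 2) (show B 1 2 = B 0 2 by omega)) (by decide))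

end V11294SQ
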