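import Mathlib
set_option autoImplicit false

/-! Sequential labelings of `mK_{2,3}`, `m ≥ 3`. -/

namespace V11294SQ

/-- The conclusion of the constructions. -/
def Lab (m s t : ℕ) : Prop :=
  ∃ (A : Fin m → Fin s → ℕ) (B : Fin m → Fin t → ℕ) (c : ℕ), 0 < c ∧
    (∀ i j, A i j < m * s * t) ∧ (∀ i k, B i k < m * s * t) ∧
    (∀ i j i' j', A i j = A i' j' → i = i' ∧ j = j') ∧
    (∀ i k i' k', B i k = B i' k' → i = i' ∧ k = k') ∧
    (∀ i j i' k, A i j ≠ B i' k) ∧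
    (∀ i j k, c ≤ A i j + B i k ∧ A i j + B i k < c + m * s * t) ∧
    (∀ x, c ≤ x → x < c + m * s * t → ∃ i j k, A i j + B i k = x)

/-- Labels of the pairs. -/
def PA (n : ℕ) (i : Fin (n + 3)) (j : Fin 2) : ℕ :=
  if (i : ℕ) = 0 then 3 * j else
  if (i : ℕ) ≤ n then 3 * i - 2 + j else
  if (i : ℕ) = n + 1 then 3 * n - 6 + 3 * j else 3 * n + 3 + 3 * j

/-- Labels of the triples. -/
def TB (n : ℕ) (i : Fin (n + 3)) (k : Fin 3) : ℕ :=
  if (i : ℕ) = 0 then 3 * n + k else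
  if (i : ℕ) ≤ n then 3 * n + 3 * i + 2 + 2 * k else
  if (i : ℕ) = n + 1 then 6 * n + 12 + k else 6 * n + 9 + k

theorem lab_large (n : ℕ) (hn : 4 ≤ n) : Lab (n + 3) 2 3 := by
  refine ⟨PA n, TB n, 3 * n, by omega, ?_, ?_, ?_, ?_, ?_, ?_, ?_⟩
  · intro i j
    have := i.2; have := j.2
    unfold PA
    split_ifs <;> omega
  · intro i k
    have := i.2; have := k.2
    unfold TB
    split_ifs <;> omega
  · intro i j i' j' h
    have := i.2; have := j.2; have := i'.2; have := j'.2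
    unfold PA at h
    split_ifs at h <;> exact ⟨Fin.ext (by omega), Fin.ext (by omega)⟩
  · intro i j i' j' h
    have := i.2; have := j.2; have := i'.2; have := j'.2
    unfold TB at h
    split_ifs at h <;> exact ⟨Fin.ext (by omega), Fin.ext (by omega)⟩
  · intro i j i' k h
    have := i.2; have := j.2; have := i'.2; have := k.2
    unfold PA TB at h
    split_ifs at h <;> omega
  · intro i j k
    have := i.2; have := j.2; have := k.2
    unfold PA TB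
    split_ifs <;> omega
  · intro x hx hx'
    obtain ⟨r, rfl⟩ := Nat.exists_eq_add_of_le hx
    by_cases h : 1 ≤ r / 6 ∧ r / 6 ≤ n
    · refine ⟨⟨r / 6, by omega⟩, ⟨(r % 6) % 2, by omega⟩, ⟨(r % 6) / 2, by omega⟩, ?_⟩
      unfold PA TB
      have h1 : ¬ (r / 6 = 0) := by omega
      simp only [h1, h.2, if_true, if_false]
      omega
    · refine ⟨⟨r / 6, by omega⟩, ⟨(r % 6) / 3, by omega⟩, ⟨(r % 6) % 3, by omega⟩, ?_⟩
      unfold PA TB
      simp only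
      split_ifs <;> omega

lemma lab_of_table (m : ℕ) (A : Fin m → Fin 2 → ℕ) (B : Fin m → Fin 3 → ℕ) (c : ℕ) (h0 : 0 < c)
    (h1 : ∀ i j, A i j < m * 2 * 3) (h2 : ∀ i k, B i k < m * 2 * 3)
    (h3 : ∀ i j i' j', A i j = A i' j' → i = i' ∧ j = j')
    (h4 : ∀ i k i' k', B i k = B i' k' → i = i' ∧ k = k')
    (h5 : ∀ i j i' k, A i j ≠ B i' k)
    (h6 : ∀ i j k, c ≤ A i j + B i k ∧ A i j + B i k < c + m * 2 * 3)
    (h7 : ∀ x < c + m * 2 * 3, c ≤ x → ∃ i j k, A i j + B i k = x) : Lab m 2 3 :=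
  ⟨A, B, c, h0, h1, h2, h3, h4, h5, h6, fun x hx hx' => h7 x hx' hx⟩

theorem lab3 : Lab 3 2 3 := by
  apply lab_of_table 3 ![![0, 1], ![3, 4], ![2, 9]] ![![5, 7, 16], ![6, 8, 15], ![11, 12, 13]] 5
    <;> decide

theorem lab4 : Lab 4 2 3 := by
  apply lab_of_table 4 ![![2, 5], ![1, 4], ![0, 3], ![9, 12]]
    ![![6, 7, 8], ![13, 14, 15], ![20, 21, 22], ![17, 18, 19]] 8 <;> decide

theorem lab5 : Lab 5 2 3 := by
  apply lab_of_table 5 ![![0, 3], ![1, 2], ![6, 7], ![4, 5], ![11, 12]]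
    ![![8, 9, 10], ![13, 15, 17], ![14, 16, 18], ![22, 24, 26], ![21, 23, 25]] 8 <;>
    decide +kernel

theorem lab6 : Lab 6 2 3 := by
  apply lab_of_table 6 ![![1, 2], ![0, 3], ![14, 15], ![6, 7], ![4, 5], ![19, 20]]
    ![![9, 11, 13], ![16, 17, 18], ![8, 10, 12], ![22, 24, 26], ![30, 32, 34], ![21, 23, 25]] 10 <;>
    decide +kernel

theorem lab23 (m : ℕ) (hm : 3 ≤ m) : Lab m 2 3 := by
  rcases (show m = 3 ∨ m = 4 ∨ m = 5 ∨ m = 6 ∨ 7 ≤ m by omega) with rfl | rfl | rfl | rfl | h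
  · exact lab3
  · exact lab4
  · exact lab5
  · exact lab6
  · obtain ⟨n, rfl⟩ : ∃ n, m = n + 3 := ⟨m - 3, by omega⟩
    exact lab_large n (by omega)

end V11294SQ
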